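import Pool.Agent.H66.TK.All
import Pool.Agent.H33.TK.Irf

/-!
# Mazur's question for the K3 surfaces of degree six on the cone over `ℙ¹ × ℙ¹`

`K` is a number field, `A` and `B` are forms of bidegree `(2,2)` and `(3,3)` over `K` in
`(x₀, x₁)` and `(y₀, y₁)`, and `X` is the surface

  `w³ + A(x, y) w + B(x, y) = 0`.

Its points have the coordinates `(w, x₀, x₁, y₀, y₁)`, `x ≠ 0`, `y ≠ 0`, modulo
`(l m w, l x₀, l x₁, m y₀, m y₁)`; it is a triple cover of `ℙ¹ × ℙ¹`. These surfaces are the
intersections of a cubic hypersurface in `ℙ⁴` with the cone over a smooth split quadric surface, away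
from the vertex of the cone, such that the cubic does not pass through the vertex. If `X` is smooth, it is a
K3 surface; this is a family of dimension 18, and the general member has Picard number two and the two
fibrations by the plane cubics `y` constant and `x` constant.

We assume that `X` is smooth and that none of these plane cubics contains a line (over the algebraic
closure). This holds for the general `A`, `B`. `R` is the ramification curve of `X → ℙ¹ × ℙ¹`, where
the derivative `3 w² + A(x, y)` vanishes. For a place of `K` with completion `L` and `x ∈ X(L)` let `Z_x`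
be the intersection of the Zariski closures of the sets of `K`-points in the neighbourhoods of `x`, as in
Mazur's question. We show:

(0) The equation is irreducible over the algebraic closure.

There is a finite set `T` of `K`-points of `X`, not on `R`, such that for all places of `K` (that is, for
all embeddings with dense image of `K` in a complete nontrivially normed field `L`)

(1) `Z_P = X` for all `K`-points `P` of `X` which are not on `R` and not in `T`.

(2) For all `x ∈ X(L)`, not on `R`, the set `Z_x` is empty, or `X`, or `{x}` with `x ∈ T`.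

(3) If the curve `R` has only finitely many `K`-points then the sets `Z_x`, `x ∈ X(L)`, take only finitely
many values: Mazur's question has a positive answer for `X` and all places. (If `R` is smooth then it has
genus 13, and this condition is satisfied by Faltings' theorem.)

Idea of the proof. For a `K`-point `P` on a smooth plane cubic `C` the points `P + n (H - 3 P)` accumulate
at `P` if the class `H - 3 P` is not torsion. Let `D(P)` be the value of the second differential of the
cubic form on the tangent direction, which vanishes at the flexes, and let `N(P)` be the value of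
the cubic form on it. `C` is the double cover of the pencil of the lines through `P`, branched along a
quartic form, so the estimates for the torsion points of Weierstrass curves show that `|N| ≤ c n² |D|`
(times the size of the coordinates) at all places if `n` kills the class. Since `C` contains no line, the
Nullstellensatz gives `max(|D|, |N|) ≥ c |g|³`, where `g` is the gradient of the cubic, hence
`|D| ≥ c n⁻² |g|³`. The two gradients in the directions `x` and `y` have only the derivative with
respect to `w` in common, and they are not both small as `X` is smooth. So, if `P` is torsion in both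
directions, `|D_x D_y|` is at least `c |3 w² + A|³` times the third power of the size of the coordinates,
and the product formula bounds the height of `P` (the order `n` is less than any power of the height).
For the points on a fixed cubic of one fibration which are torsion for the other one the same works without
the smoothness. So the `K`-points move in one direction, and then from all but finitely many points
in the other one.

Project TK: helper66, with helper65 (Nullstellensatz, the lower bounds), helper31 (the inequality for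
the torsion points), helper27 (scaling, plane cubics, density), helper64 (order of the torsion, product
formula), helper80 (finiteness), helper33 (irreducibility). The proof uses the library modules of the project TT (helper35 and others)
for the torsion points and rational points of quartic curves `v² = q(u)`.
-/

set_option autoImplicit false

open MvPolynomial

namespace Pool.Agent.Results.MP_f9f755_nt.TrigonalK3Surfaces

/-- The form `F = w³ + A(x, y) w + B(x, y)` in the variables `w, x₀, x₁, y₀, y₁` (numbered `0, …, 4`);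
`a i j` is the coefficient of `x₀²⁻ⁱ x₁ⁱ y₀²⁻ʲ y₁ʲ` in `A`, and `b i j` is the coefficient of
`x₀³⁻ⁱ x₁ⁱ y₀³⁻ʲ y₁ʲ` in `B`. -/
noncomputable def F {K : Type} [Field K] (a : Fin 3 → Fin 3 → K) (b : Fin 4 → Fin 4 → K) :
    MvPolynomial (Fin 5) K :=
  X 0 ^ 3 +
    (∑ i : Fin 3, ∑ j : Fin 3, C (a i j) *
      (X 1 ^ (2 - (i : ℕ)) * X 2 ^ (i : ℕ) * (X 3 ^ (2 - (j : ℕ)) * X 4 ^ (j : ℕ)))) * X 0 +
    ∑ i : Fin 4, ∑ j : Fin 4, C (b i j) *
      (X 1 ^ (3 - (i : ℕ)) * X 2 ^ (i : ℕ) * (X 3 ^ (3 - (j : ℕ)) * X 4 ^ (j : ℕ)))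

/-- `p = (w, x₀, x₁, y₀, y₁)` are coordinates of a point: `x ≠ 0` and `y ≠ 0`. -/
def IsPoint {E : Type} [Zero E] (p : Fin 5 → E) : Prop :=
  (p 1 ≠ 0 ∨ p 2 ≠ 0) ∧ (p 3 ≠ 0 ∨ p 4 ≠ 0)

/-- The coordinates `(l m w, l x, m y)` of the same point (if `l m ≠ 0`). -/
def scale {E : Type} [Mul E] (l m : E) (p : Fin 5 → E) : Fin 5 → E :=
  ![l * m * p 0, l * p 1, l * p 2, m * p 3, m * p 4]

/-- The surface is smooth, and no plane cubic `y` constant or `x` constant contains a line. (These
cubics do not contain the point with `x = 0` or `y = 0`, so the equation of the line would be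
`w = l x₀ + m x₁` or `w = l y₀ + m y₁`.) -/
structure Admissible {K : Type} [Field K] (a : Fin 3 → Fin 3 → K) (b : Fin 4 → Fin 4 → K) : Prop where
  smooth : ∀ p : Fin 5 → AlgebraicClosure K, IsPoint p → aeval p (F a b) = 0 →
    ∃ i, aeval p (pderiv i (F a b)) ≠ 0
  cubics₁ : ∀ y₀ y₁ l m : AlgebraicClosure K, y₀ ≠ 0 ∨ y₁ ≠ 0 →
    ∃ x₀ x₁ : AlgebraicClosure K, aeval ![l * x₀ + m * x₁, x₀, x₁, y₀, y₁] (F a b) ≠ 0
  cubics₂ : ∀ x₀ x₁ l m : AlgebraicClosure K, x₀ ≠ 0 ∨ x₁ ≠ 0 →
    ∃ y₀ y₁ : AlgebraicClosure K, aeval ![l * y₀ + m * y₁, x₀, x₁, y₀, y₁] (F a b) ≠ 0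

/-- The ideal of `Z_x`: the polynomials which vanish (for all coordinates) at all `K`-points of the
surface in some neighbourhood of the point with the coordinates `x`. -/
def closureIdeal {K L : Type} [Field K] [NontriviallyNormedField L] (σ : K →+* L)
    (a : Fin 3 → Fin 3 → K) (b : Fin 4 → Fin 4 → K) (x : Fin 5 → L) : Set (MvPolynomial (Fin 5) K) :=
  {f | ∃ U ∈ nhds x, ∀ p : Fin 5 → K, IsPoint p → eval p (F a b) = 0 →
    (∃ l m : L, l ≠ 0 ∧ m ≠ 0 ∧ scale l m (fun i => σ (p i)) ∈ U) →
    ∀ l m : K, eval (scale l m p) f = 0}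

open Pool.Agent.H66.TK in
theorem F_eq {K : Type} [Field K] (a : Fin 3 → Fin 3 → K) (b : Fin 4 → Fin 4 → K) :
    F a b = eqn a b := by
  simp only [F, eqn, FF, cub, ax, bx, q2, q3, Fin.sum_univ_succ, Fin.sum_univ_zero]
  simp
  ring

section derivatives

open Pool.Agent.H66.TK

variable {K : Type} [Field K] (a : Fin 3 → Fin 3 → K) (b : Fin 4 → Fin 4 → K)
  (w : AlgebraicClosure K) (x y : Fin 2 → AlgebraicClosure K)

theorem aeval_F (p : Fin 5 → AlgebraicClosure K) : aeval p (F a b) =
    FF (ex (algebraMap K _) a) (ex (algebraMap K _) b) (p 0) ![p 1, p 2] ![p 3, p 4] := by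
  rw [F_eq]
  exact eval₂_eqn (algebraMap K (AlgebraicClosure K)) a b p

theorem der0 : aeval ![w, x 0, x 1, y 0, y 1] (pderiv 0 (F a b)) =
    Fw (ex (algebraMap K _) a) w x y := by
  rw [F_eq]
  simp [eqn, FF, Fw, cw, cub, ax, bx, q2, q3, ex, pderiv_X]

theorem der1 : aeval ![w, x 0, x 1, y 0, y 1] (pderiv 1 (F a b)) =
    c0 (ax (ex (algebraMap K _) a) y) (bx (ex (algebraMap K _) b) y) w x := by
  rw [F_eq]
  simp [eqn, FF, cub, c0, ax, bx, q2, q3, ex, pderiv_X]
  ring

theorem der2 : aeval ![w, x 0, x 1, y 0, y 1] (pderiv 2 (F a b)) =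
    c1 (ax (ex (algebraMap K _) a) y) (bx (ex (algebraMap K _) b) y) w x := by
  rw [F_eq]
  simp [eqn, FF, cub, c1, ax, bx, q2, q3, ex, pderiv_X]
  ring

theorem der3 : aeval ![w, x 0, x 1, y 0, y 1] (pderiv 3 (F a b)) =
    c0 (ax (tr (ex (algebraMap K _) a)) x) (bx (tr (ex (algebraMap K _) b)) x) w y := by
  rw [F_eq]
  simp [eqn, FF, cub, c0, ax, bx, q2, q3, ex, tr, pderiv_X]
  ring

theorem der4 : aeval ![w, x 0, x 1, y 0, y 1] (pderiv 4 (F a b)) =
    c1 (ax (tr (ex (algebraMap K _) a)) x) (bx (tr (ex (algebraMap K _) b)) x) w y := by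
  rw [F_eq]
  simp [eqn, FF, cub, c1, ax, bx, q2, q3, ex, tr, pderiv_X]
  ring

theorem ne_vec {x : Fin 2 → AlgebraicClosure K} (hx : x ≠ 0) : x 0 ≠ 0 ∨ x 1 ≠ 0 := by
  by_contra h
  push Not at h
  apply hx
  funext i
  fin_cases i
  · exact h.1
  · exact h.2

variable {a b}

theorem good (h : Admissible a b) : Good a b := by
  refine ⟨?_, ?_, ?_⟩
  · intro w x y hx hy h0 h1 h2 h3 h4 h5
    have hv : ∀ z : Fin 2 → AlgebraicClosure K, ![z 0, z 1] = z := by
      intro z
      funext i
      fin_cases i <;> rfl
    obtain ⟨i, hi⟩ := h.smooth ![w, x 0, x 1, y 0, y 1] ⟨ne_vec hx, ne_vec hy⟩ (by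
      rw [aeval_F]
      show FF _ _ w ![x 0, x 1] ![y 0, y 1] = 0
      rw [hv, hv]
      exact h0)
    fin_cases i
    · exact hi ((der0 a b w x y).trans h1)
    · exact hi ((der1 a b w x y).trans h2)
    · exact hi ((der2 a b w x y).trans h3)
    · exact hi ((der3 a b w x y).trans h4)
    · exact hi ((der4 a b w x y).trans h5)
  · intro y hy l m
    obtain ⟨x₀, x₁, h1⟩ := h.cubics₁ (y 0) (y 1) l m (ne_vec hy)
    refine ⟨![x₀, x₁], ?_⟩
    rw [aeval_F] at h1
    have hv : y = ![y 0, y 1] := by
      funext i
      fin_cases i <;> rfl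
    rw [hv]
    exact h1
  · intro x hx l m
    obtain ⟨y₀, y₁, h1⟩ := h.cubics₂ (x 0) (x 1) l m (ne_vec hx)
    refine ⟨![y₀, y₁], ?_⟩
    rw [aeval_F] at h1
    have hv : x = ![x 0, x 1] := by
      funext i
      fin_cases i <;> rfl
    rw [hv]
    have e := FF_tr (ex (algebraMap K (AlgebraicClosure K)) a) (ex (algebraMap K _) b)
      (l * y₀ + m * y₁) ![x 0, x 1] ![y₀, y₁]
    show FF (tr (ex (algebraMap K (AlgebraicClosure K)) a)) (tr (ex (algebraMap K _) b))
      (l * y₀ + m * y₁) ![y₀, y₁] ![x 0, x 1] ≠ 0
    rw [e]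
    exact h1

theorem dw_eq {K E : Type} [Field K] [Field E] (τ : K →+* E) (a : Fin 3 → Fin 3 → K)
    (b : Fin 4 → Fin 4 → K) (p : Fin 5 → E) : eval₂ τ p (pderiv 0 (F a b)) = dw τ a p := by
  rw [F_eq]
  simp [eqn, FF, dw, Fw, cw, cub, ax, bx, q2, q3, ex, pderiv_X]

end derivatives

/-- **Mazur's question for the K3 surfaces `w³ + A(x, y) w + B(x, y) = 0`.** -/
theorem result (K : Type) [Field K] [NumberField K] (a : Fin 3 → Fin 3 → K) (b : Fin 4 → Fin 4 → K)
    (h : Admissible a b) :
    -- (0) the surface is irreducible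
    Irreducible (map (algebraMap K (AlgebraicClosure K)) (F a b)) ∧
    -- a finite set of `K`-points off the ramification curve
    ∃ T : Set (Fin 5 → K), T.Finite ∧
      (∀ q ∈ T, IsPoint q ∧ eval q (F a b) = 0 ∧ eval q (pderiv 0 (F a b)) ≠ 0) ∧
      ∀ (L : Type) [NontriviallyNormedField L] [CompleteSpace L] (σ : K →+* L), DenseRange σ →
        -- (1) the local closures at the rational points
        (∀ p : Fin 5 → K, IsPoint p → eval p (F a b) = 0 → eval p (pderiv 0 (F a b)) ≠ 0 →
          (∀ q ∈ T, ∀ l m : K, p ≠ scale l m q) →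
          closureIdeal σ a b (fun i => σ (p i)) = {f | F a b ∣ f}) ∧
        -- (2) at the points off the ramification curve
        (∀ x : Fin 5 → L, IsPoint x → eval₂ σ x (F a b) = 0 → eval₂ σ x (pderiv 0 (F a b)) ≠ 0 →
          closureIdeal σ a b x = Set.univ ∨ closureIdeal σ a b x = {f | F a b ∣ f} ∨
          ∃ q ∈ T, (∃ l m : L, l ≠ 0 ∧ m ≠ 0 ∧ x = scale l m fun i => σ (q i)) ∧
            closureIdeal σ a b x = {f | ∀ l m : K, eval (scale l m q) f = 0}) ∧
        -- (3) everywhere, if the ramification curve has only finitely many `K`-points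
        ((∃ B : Set (Fin 5 → K), B.Finite ∧ ∀ p : Fin 5 → K, IsPoint p → eval p (F a b) = 0 →
            eval p (pderiv 0 (F a b)) = 0 → ∃ q ∈ B, ∃ l m : K, p = scale l m q) →
          {J | ∃ x : Fin 5 → L, IsPoint x ∧ eval₂ σ x (F a b) = 0 ∧
            J = closureIdeal σ a b x}.Finite) := by
  obtain ⟨T, hT, hTp, hT'⟩ := Pool.Agent.H66.TK.mzp K a b (good h)
  have hd : ∀ p : Fin 5 → K, eval p (pderiv 0 (F a b)) = Pool.Agent.H66.TK.dw (RingHom.id K) a p :=
    fun p => dw_eq (RingHom.id K) a b p
  refine ⟨?_, T, hT, fun q hq => ?_, ?_⟩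
  · rw [F_eq]
    exact Pool.Agent.H33.TK.irf K a b (good h).line₁
  · rw [hd, F_eq]
    exact hTp q hq
  · intro L _ _ σ hσ
    obtain ⟨h1, h2, h3⟩ := hT' L σ hσ
    have hc : ∀ x : Fin 5 → L, closureIdeal σ a b x = Pool.Agent.H66.TK.clo σ a b x := by
      intro x
      unfold closureIdeal Pool.Agent.H66.TK.clo
      rw [F_eq]
      rfl
    simp only [hd, hc, dw_eq]
    rw [F_eq]
    exact ⟨h1, h2, h3⟩

end Pool.Agent.Results.MP_f9f755_nt.TrigonalK3Surfaces
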